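import Pool.Agent.Run7.h45.KW5

/-!
# The Knörr–Robinson conjecture is a congruence modulo `p` about pairs of elements

`KRC`, `chi2`, `eulerChar`, `fixedPoset` are the definitions of `Pool/Agent/Y63/KR`, `err` that of
`Pool/Agent/Q18/KRX/Fin.lean`: `err p G = χ₂ - (k(G) - z_p(G))`.

Outline. Let `D(G) = err p G`; it is an integer. (1) `z_p(G)` is congruent modulo `p` to `|G|⁻¹` times the
number of the pairs whose commutator is a `p`-element (the trace on the centre of the group algebra of the
multiplication by the sum of the `p`-elements, which acts as `1` on the blocks of defect zero and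
nilpotently on the others). So the congruence below says that `p` divides `D(G)`.
(2) `D(G ^ p) = z ^ p - f ^ p` where `z = z_p(G)` and `f = z - D(G)` is the alternating sum, since both are
multiplicative; and `p D(G ≀ C_p) = D(G ^ p) - D(G)` by the formula for normal subgroups of index `p`
(starting result `IndexFormula`). So if `p ^ m`, `m ≥ 1`, divides `D(G)` and `D(G ≀ C_p)`, then `p ^ (m + 1)`
divides `D(G)`.
(3) If `L` is a minimal counterexample and `V` the regular module of `L` over the field with `r` elements,
then `D(V ⋊ L)` is a positive multiple of `D(L)`, and `D(C_r ^ n × H) = r ^ n D(H)`.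
-/

set_option autoImplicit false
set_option linter.unusedSectionVars false

open scoped Classical

noncomputable section

namespace Pool.Agent.Results.MP_b6945b_al.CommutatorCongruence

open Pool.Agent.Y63.KR (KRC eulerChar fixedPoset)
open Pool.Agent.Q18.KRX (err)

/-- The sum, over the pairs `(x, y)` of commuting elements of `G`, of the Euler characteristic of the
poset of the nontrivial `p`-subgroups of `G` normalised by `x` and `y`. -/
def eulerSum (p : ℕ) (G : Type) [Group G] : ℤ :=
  ∑ᶠ q : {q : G × G // q.1 * q.2 = q.2 * q.1}, eulerChar (fixedPoset p ({q.1.1, q.1.2} : Set G))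

/-- The number of the pairs `(x, y)` of elements of `G` whose commutator is a `p`-element different
from `1`. -/
def numPairs (p : ℕ) (G : Type) [Group G] : ℕ :=
  Nat.card {q : G × G // ∃ k : ℕ, orderOf (q.1 * q.2 * q.1⁻¹ * q.2⁻¹) = p ^ (k + 1)}

/-- The congruence `eulerSum p G + numPairs p G ≡ 0` modulo `p |G|`. -/
def Congruence (p : ℕ) (G : Type) [Group G] : Prop :=
  ((p * Nat.card G : ℕ) : ℤ) ∣ eulerSum p G + numPairs p G

/-- The cyclic group of order `p`, written multiplicatively. -/
abbrev Cyc (p : ℕ) : Type := Multiplicative (ZMod p)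

/-- The action of `C_p` on the functions `C_p → G` by translations. -/
def shift (p : ℕ) (G : Type) [Group G] : Cyc p →* MulAut (Cyc p → G) where
  toFun s :=
    { toFun := fun f t => f (s⁻¹ * t)
      invFun := fun f t => f (s * t)
      left_inv := fun f => by funext t; simp
      right_inv := fun f => by funext t; simp
      map_mul' := fun _ _ => rfl }
  map_one' := by ext f t; simp
  map_mul' s t := by
    ext f u
    simp [mul_assoc, mul_comm]

/-- The wreath product `G ≀ C_p`. -/
abbrev Wreath (p : ℕ) (G : Type) [Group G] : Type := (Cyc p → G) ⋊[shift p G] Cyc p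

/-- The iterated wreath product `G ≀ C_p ≀ ⋯ ≀ C_p` with `j` factors `C_p`. -/
def iterWreath (p : ℕ) : ℕ → GrpCat.{0} → GrpCat.{0}
  | 0, G => G
  | j + 1, G => iterWreath p j (GrpCat.of (Wreath p G))

/-- `C` is a class of groups closed under isomorphisms, subgroups and (for finite groups) wreath
products with `C_p`. -/
structure Closed (p : ℕ) (C : ∀ (G : Type) [Group G], Prop) : Prop where
  iso : ∀ (G H : Type) [Group G] [Group H], Nonempty (G ≃* H) → C G → C H
  sub : ∀ (G : Type) [Group G] (H : Subgroup G), C G → C H
  wr : ∀ (G : Type) [Group G] [Finite G], C G → C (Wreath p G)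

/-- `H` has a nontrivial elementary abelian normal `r`-subgroup `V` with centralizer `V` and with a
complement in the class `C`. -/
def Fam (r : ℕ) (C : ∀ (G : Type) [Group G], Prop) (H : Type) [Group H] : Prop :=
  ∃ V K : Subgroup H, V ≠ ⊥ ∧ V.Normal ∧ (∀ v ∈ V, v ^ r = 1) ∧
    Subgroup.centralizer (V : Set H) = V ∧ V.IsComplement' K ∧ C K

theorem shift_eq (p : ℕ) (G : Type) [Group G] :
    shift p G = Pool.Agent.K3h3.MK.rAct G (Cyc p) := by
  ext s f t
  rfl

theorem iter_eq (p : ℕ) : ∀ (j : ℕ) (G : GrpCat.{0}),
    iterWreath p j G = Run7.h45.KW.iter (Cyc p) j G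
  | 0, _ => rfl
  | j + 1, G => by
    unfold iterWreath Run7.h45.KW.iter
    rw [iter_eq p j]
    unfold Wreath Pool.Agent.K3h3.MK.Wr
    rw [shift_eq]

/-- **The Knörr–Robinson conjecture is a congruence modulo `p`.** Let `p` be a prime and `D(G)` the
difference of the two sides of the conjecture for `G`.
(1) Let `G` be a finite group. `G` satisfies the conjecture at `p` if and only if the congruence holds for
all iterated wreath products `G ≀ C_p ≀ ⋯ ≀ C_p`. If it holds for less than `m` factors `C_p`, then `D(G)`
is an integer divisible by `p ^ m`.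
(2) Let `r ≠ p` be a prime, `n₀` a natural number and `C` a class of groups closed under isomorphisms,
subgroups and wreath products with `C_p`. All finite groups in `C` satisfy the conjecture at `p` if and
only if the congruence holds for all finite groups of order at least `n₀` which have a nontrivial
elementary abelian normal `r`-subgroup with centralizer `V` and with a complement in `C`. -/
theorem result (p : ℕ) [Fact p.Prime] :
    (∀ (G : Type) [Group G] [Finite G],
      (KRC p G ↔ ∀ j : ℕ, Congruence p (iterWreath p j (GrpCat.of G))) ∧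
      ∀ m : ℕ, (∀ j < m, Congruence p (iterWreath p j (GrpCat.of G))) →
        ∃ d : ℤ, err p G = (p : ℚ) ^ m * d) ∧
    ∀ (r : ℕ) [Fact r.Prime], r ≠ p → ∀ (n₀ : ℕ) (C : ∀ (G : Type) [Group G], Prop), Closed p C →
      ((∀ (G : Type) [Group G] [Finite G], C G → KRC p G) ↔
        ∀ (H : Type) [Group H] [Finite H], Fam r C H → n₀ ≤ Nat.card H → Congruence p H) := by
  have e : ∀ (G : Type) [Group G] (j : ℕ), Congruence p (iterWreath p j (GrpCat.of G)) ↔
      Run7.h45.KW.Cong p (Run7.h45.KW.iter (Cyc p) j (GrpCat.of G)) := by
    intro G _ j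
    rw [iter_eq]
    exact Iff.rfl
  refine ⟨fun G _ _ => ⟨?_, fun m h => ?_⟩, fun r _ hrp n₀ C hC => ?_⟩
  · rw [forall_congr' (e G)]
    exact Run7.h45.KW.krc_iter (Nat.card_zmod p)
  · have hf := fun j => Run7.h45.KW.finIter (S := Cyc p) j G
    obtain ⟨d, hd⟩ := Run7.h45.KW.errZ_pow (S := Cyc p) (Nat.card_zmod p) m G fun j hj => by
      have := hf j
      exact Run7.h45.KW.cong_iff.mp ((e G j).mp (h j hj))
    refine ⟨d, ?_⟩
    rw [Pool.Agent.Q18.KRX.err_eq, hd]
    push_cast
    rfl
  · exact Run7.h45.KW.krc_cls_large hrp (S := Cyc p) (Nat.card_zmod p)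
      ⟨hC.iso, hC.sub, fun G _ _ hG => by
        have h := hC.wr G hG
        unfold Wreath at h
        rw [shift_eq] at h
        exact h⟩ n₀

end Pool.Agent.Results.MP_b6945b_al.CommutatorCongruence
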