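import Pool.Agent.Run7.h45.Kp6

/-!
# The Knörr–Robinson conjecture: all or nothing, in perfect groups without components

Proof. Let `D_p(H) = χ₂(S_H^{p+*}, H) - (k(H) - z_p(H))` be the error term. Let `V` be a finite abelian
group of order prime to `p` on which the finite group `L` acts. Then
`|L| D_p(V ⋊ L) = ∑_θ |L_θ| D_p(L_θ)`, the sum over the characters `θ` of `V`, where `L_θ` is the
stabiliser. (The `p`-subgroups above a `p`-subgroup `P` of `L` are the conjugates of `P` under `V`; for
commuting `x`, `y` in `L` normalising `P`, the number of pairs of commuting lifts `X`, `Y` together with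
a `p`-subgroup above `P` normalised by both is `|V|` times the number of the characters of `V` fixed by
`x`, `y` and `P`; Möbius inversion over the `x`, `y`-invariant `p`-subgroups gives the identity for the
alternating sum. Clifford theory gives it for `z_p`.)

Hence `|L| D_p(V ⋊ L) = ∑_K e(K) |Irr(V)^K|` over the subgroups `K` of `L`, where
`∑_{K ≤ H} e(K) = |H| D_p(H)`. Suppose the conjecture fails and let `G` be a counterexample of smallest
order. Let `L` be the normal closure of `A_N` in `G ≀ A_N`, where `N = 5|G|`. It is perfect and contains
the diagonal subgroup `M ≅ G`. For a suitable finite `L`-set `X` (made of copies of `L`, `{1, …, N} × G`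
and `{1, …, N}`), all subgroups `K` of `L` with as many orbits on `X` as `M` are isomorphic to `G`. For
`n ≡ 1` modulo `p|L|` let `U` be the kernel of the norm on the functions `X → ℤ/n`. Then `H = U ⋊ L` is
perfect, `C_H(U) = U`, and `|L| D_p(H)` is the value at `n` of a fixed polynomial, which is not constant
because the coefficient belonging to `M` is a multiple of `|G| D_p(G)`. So `|D_p(H)|` is larger than a
power of `|H|`.
-/

set_option autoImplicit false

noncomputable section

namespace Pool.Agent.Results.MP_b6945b_al.PerfectGroups

open Pool.Agent.Y63.KR (chi2 KRC)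
open Pool.Agent.Y63.AWC (numDefectZero)

/-- the error term `D_p(H) = χ₂(S_H^{p+*}, H) - (k(H) - z_p(H))` of the Knörr-Robinson conjecture;
`KRC p H` says that it vanishes. -/
def err (p : ℕ) (H : Type) [Group H] : ℚ :=
  chi2 p H - ((Nat.card (ConjClasses H) : ℚ) - (numDefectZero p H : ℚ))

/-- `H` is perfect and has an abelian normal Hall subgroup `U` of order prime to `p` with
`C_H(U) = U`. -/
def PerfectHall (p : ℕ) (H : Type) [Group H] : Prop :=
  commutator H = ⊤ ∧ ∃ U : Subgroup H, U.Normal ∧ (∀ x ∈ U, ∀ y ∈ U, x * y = y * x) ∧
    ¬ p ∣ Nat.card U ∧ Nat.Coprime (Nat.card U) U.index ∧ Subgroup.centralizer (U : Set H) ≤ U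

/-- **All or nothing.** The Knörr–Robinson conjecture at the prime `p` holds for all finite groups if
and only if, for every `ε > 0`, the error term satisfies `|D_p(H)| ≤ C |H| ^ ε` for the finite perfect
groups `H` which have a self-centralising abelian normal Hall subgroup of order prime to `p`. -/
theorem result (p : ℕ) [Fact p.Prime] :
    (∀ (G : Type) [Group G] [Finite G], KRC p G) ↔
      ∀ ε : ℝ, 0 < ε → ∃ C : ℝ, ∀ (H : Type) [Group H] [Finite H], PerfectHall p H →
        |((err p H : ℚ) : ℝ)| ≤ C * (Nat.card H : ℝ) ^ ε :=
  Run7.h45.krc_perfect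

end Pool.Agent.Results.MP_b6945b_al.PerfectGroups
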