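import Pool.Agent.Run7.h45.QP5

/-!
# The Knörr–Robinson conjecture: all or nothing in primitive permutation groups

`KRC`, `chi2` are the definitions of `Pool/Agent/Y63/KR`, `err` that of `Pool/Agent/Q18/KRX/Fin.lean`:
`err p G = χ₂ - (k(G) - z_p(G))`.

Proof. Let `D(G) = err p G`. For an abelian `p'`-group `V` on which `L` acts, `|L| D(V ⋊ L)` is the sum of
`|L_θ| D(L_θ)` over the characters `θ` of `V`, `L_θ` the stabilizer. Let `E` be cyclic of order `e` and `W`
an irreducible `E`-module over the field with `r` elements; `E` acts without fixed points on `W` and its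
dual. For a group `X`, the wreath product `M = E ≀ X` (regular action of `X`) acts faithfully and
irreducibly on `V = W ^ X`, and the stabilizers of the characters of `V` in `M` are isomorphic to
semidirect products `A ⋊ Y` with `A ≤ E ^ X` and `Y ≤ X`.

Let `G` be a counterexample of smallest order in `C`, say `D(G) > 0`, let `T` be an elementary abelian
`e`-group of order `e ^ k` and `X = G × T`. The subgroups of `X` are of the form `T₁ × G₁` with `G₁ ≤ G`. So
`D(Y) ≥ 0` for all `Y ≤ X`, with `D(Y) ≥ 1` if `Y` contains `G`. Hence `D` is nonnegative on the stabilizers,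
and `D(V ⋊ M) ≥ D(M)`, which is at least `1 / |X|` times the number of the characters of `E ^ X` fixed by
`G`, so at least `e ^ (e ^ k) / (|G| e ^ k)`. The order of the primitive group `V ⋊ M` is at most
`c ^ (e ^ k)`, where `c` depends on `G`, `e`, `r` only. So `D(V ⋊ M)` is larger than a fixed power of
`|V ⋊ M|`.
-/

set_option autoImplicit false
set_option linter.unusedSectionVars false

open scoped Classical

noncomputable section

namespace Pool.Agent.Results.MP_b6945b_al.PrimitiveGroups

open Pool.Agent.Y63.KR (KRC)
open Pool.Agent.Q18.KRX (err)

/-- `C` is a class of groups closed under isomorphisms, subgroups, and semidirect products `V ⋊ L` of a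
finite elementary abelian `e`-group `V` and a finite group `L` in `C`. -/
structure Closed (e : ℕ) (C : ∀ (G : Type) [Group G], Prop) : Prop where
  iso : ∀ (G H : Type) [Group G] [Group H], Nonempty (G ≃* H) → C G → C H
  sub : ∀ (G : Type) [Group G] (H : Subgroup G), C G → C H
  ext : ∀ (V L : Type) [CommGroup V] [Group L] [Finite V] [Finite L] (φ : L →* MulAut V),
    (∀ v : V, v ^ e = 1) → C L → C (V ⋊[φ] L)

/-- `H` has a maximal subgroup `M` in `C` with trivial core and an elementary abelian normal `r`-subgroup
`V` which is a complement of `M`. For finite `H` and a prime `r` this means that `H` is isomorphic to a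
primitive permutation group of affine type whose degree is a power of `r` and whose point stabilizers are
in `C`. -/
def Primitive (r : ℕ) (C : ∀ (G : Type) [Group G], Prop) (H : Type) [Group H] : Prop :=
  ∃ V M : Subgroup H, IsCoatom M ∧ M.normalCore = ⊥ ∧ V.Normal ∧ (∀ x ∈ V, ∀ y ∈ V, x * y = y * x) ∧
    (∀ x ∈ V, x ^ r = 1) ∧ V.IsComplement' M ∧ C M

/-- **The Knörr–Robinson conjecture: all or nothing in primitive groups.** Let `p`, `r`, `e` be different
primes and `C` a class of groups closed under isomorphisms, subgroups and split extensions of elementary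
abelian `e`-groups by groups in `C`. All finite groups in `C` satisfy the Knörr–Robinson conjecture at `p`
if and only if, for every `ε > 0`, there is a constant `c` such that the error term satisfies
`|D(H)| ≤ c |H| ^ ε` for all finite primitive permutation groups `H` of affine type whose degree is a power
of `r` and whose point stabilizers are in `C`. -/
theorem result (p r e : ℕ) [Fact p.Prime] [Fact r.Prime] [Fact e.Prime] (hrp : r ≠ p) (hep : e ≠ p)
    (her : e ≠ r) (C : ∀ (G : Type) [Group G], Prop) (hC : Closed e C) :
    (∀ (G : Type) [Group G] [Finite G], C G → KRC p G) ↔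
      ∀ ε : ℝ, 0 < ε → ∃ c : ℝ, ∀ (H : Type) [Group H] [Finite H], Primitive r C H →
        |((err p H : ℚ) : ℝ)| ≤ c * (Nat.card H : ℝ) ^ ε :=
  Run7.h45.QP.krc_prim hrp hep her ⟨hC.iso, hC.sub, hC.ext⟩

end Pool.Agent.Results.MP_b6945b_al.PrimitiveGroups
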