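import Pool.Agent.Run7.h45.KW5

/-!
# The Knörr–Robinson conjecture: small errors in groups of characteristic `r`

`KRC`, `chi2` are the definitions of `Pool/Agent/Y63/KR`, `err` that of `Pool/Agent/Q18/KRX/Fin.lean`:
`err p G = χ₂ - (k(G) - z_p(G))`.

Outline. Let `D(G) = err p G`. If `L` is a counterexample of smallest order in the class and `V` the regular
module of `L` over the field with `r` elements, then `|L| D(V ⋊ L)` is the sum of `|L_θ| D(L_θ)` over the
characters `θ` of `V`, `L_θ` the stabilizer; so `D(V ⋊ L)` is a positive multiple of `D(L)`. Moreover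
`D(C_r ^ n × H) = r ^ n D(H)`.
-/

set_option autoImplicit false
set_option linter.unusedSectionVars false

open scoped Classical

noncomputable section

namespace Pool.Agent.Results.MP_b6945b_al.SmallErrors

open Pool.Agent.Y63.KR (KRC)
open Pool.Agent.Q18.KRX (err)

/-- `C` is a class of groups closed under isomorphisms and subgroups. -/
structure Closed (C : ∀ (G : Type) [Group G], Prop) : Prop where
  iso : ∀ (G H : Type) [Group G] [Group H], Nonempty (G ≃* H) → C G → C H
  sub : ∀ (G : Type) [Group G] (H : Subgroup G), C G → C H

/-- `H` has a nontrivial elementary abelian normal `r`-subgroup `V` with centralizer `V` and with a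
complement in the class `C`. -/
def Fam (r : ℕ) (C : ∀ (G : Type) [Group G], Prop) (H : Type) [Group H] : Prop :=
  ∃ V K : Subgroup H, V ≠ ⊥ ∧ V.Normal ∧ (∀ v ∈ V, v ^ r = 1) ∧
    Subgroup.centralizer (V : Set H) = V ∧ V.IsComplement' K ∧ C K

/-- **The Knörr–Robinson conjecture: small errors.** Let `p ≠ r` be primes and `C` a class of groups closed
under isomorphisms and subgroups. All finite groups in `C` satisfy the Knörr–Robinson conjecture at `p` if
and only if, for every `ε > 0`, the error term `D(H)` satisfies `|D(H)| ≤ ε |H|` for all sufficiently large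
finite groups `H` which have a nontrivial elementary abelian normal `r`-subgroup `V` with centralizer `V`
and with a complement in `C`. -/
theorem result (p r : ℕ) [Fact p.Prime] [Fact r.Prime] (hrp : r ≠ p)
    (C : ∀ (G : Type) [Group G], Prop) (hC : Closed C) :
    (∀ (G : Type) [Group G] [Finite G], C G → KRC p G) ↔
      ∀ ε : ℝ, 0 < ε → ∃ n₀ : ℕ, ∀ (H : Type) [Group H] [Finite H], Fam r C H → n₀ ≤ Nat.card H →
        |((err p H : ℚ) : ℝ)| ≤ ε * Nat.card H :=
  Run7.h45.KW.krc_small hrp hC.iso hC.sub

end Pool.Agent.Results.MP_b6945b_al.SmallErrors
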